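import Mathlib

set_option autoImplicit false

open MvPolynomial

namespace Pool.Agent.H747R3.EG

/-- copy of `Big` (to develop without the project file) -/
def BigP {K : Type} [Field K] (P : MvPolynomial (Fin 2) K) : Prop :=
  ∀ (w : Fin 2 → ℕ) (_ : ∀ i, 0 < w i) (n : ℕ) (_ : ∀ d ∈ P.support, d 0 * w 0 + d 1 * w 1 ≤ n)
    (q : MvPolynomial (Fin 2) K) (_ : Irreducible q) (m : ℕ) (_ : 1 ≤ m)
    (_ : q ^ m ∣ weightedHomogeneousComponent w n P)
    (_ : ¬ q ^ (m + 1) ∣ weightedHomogeneousComponent w n P), n ≤ m * (w 0 + w 1)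

theorem exists_mult {R : Type*} [CommRing R] [IsDomain R] [WfDvdMonoid R] {q T : R}
    (hq : Irreducible q) (hT : T ≠ 0) (hd : q ∣ T) : ∃ m, 1 ≤ m ∧ q ^ m ∣ T ∧ ¬ q ^ (m + 1) ∣ T := by
  have hf : FiniteMultiplicity q T := FiniteMultiplicity.of_not_isUnit hq.not_isUnit hT
  refine ⟨multiplicity q T, ?_, pow_multiplicity_dvd q T, hf.not_pow_dvd_of_multiplicity_lt (Nat.lt_succ_self _)⟩
  exact hf.le_multiplicity_of_pow_dvd (by simpa using hd)

theorem core {R : Type*} [CommRing R] [IsDomain R] [UniqueFactorizationMonoid R]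
    (T : Polynomial R) (k : ℕ) (h1 : Polynomial.X ^ k ∣ T)
    (h2 : T.coeff k ≠ 0) (h2' : ¬ IsUnit (T.coeff k)) (h4 : T.natDegree < 2 * k)
    (h5 : IsUnit T.leadingCoeff) : ∃ q : Polynomial R, Irreducible q ∧ q ∣ T ∧ ¬ q ^ k ∣ T := by
  obtain ⟨G, rfl⟩ := h1
  have hG0 : G.coeff 0 = (Polynomial.X ^ k * G).coeff k := by
    rw [Polynomial.coeff_X_pow_mul']; simp
  rw [← hG0] at h2 h2'
  have hG : G ≠ 0 := by rintro rfl; simp at h2
  have hdeg : (Polynomial.X ^ k * G).natDegree = k + G.natDegree := by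
    rw [Polynomial.natDegree_mul (pow_ne_zero _ Polynomial.X_ne_zero) hG]; simp
  have hlc : (Polynomial.X ^ k * G).leadingCoeff = G.leadingCoeff := by
    rw [Polynomial.leadingCoeff_mul]; simp
  rw [hdeg] at h4
  rw [hlc] at h5
  have hGu : ¬ IsUnit G := by
    intro h
    exact h2' (by
      have := Polynomial.isUnit_iff_coeff_isUnit_isNilpotent.1 h
      exact this.1)
  obtain ⟨Q, hQ, hQG⟩ := WfDvdMonoid.exists_irreducible_factor hGu hG
  refine ⟨Q, hQ, hQG.mul_left _, fun hQk => ?_⟩
  have hQX : ¬ Q ∣ (Polynomial.X : Polynomial R) := by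
    intro h
    have := (Polynomial.irreducible_X (R := R))
    have h' : Associated Q (Polynomial.X : Polynomial R) := hQ.associated_of_dvd this h
    have : (Polynomial.X : Polynomial R) ∣ G := h'.symm.dvd.trans hQG
    rw [Polynomial.X_dvd_iff] at this
    exact h2 this
  have hrp : IsRelPrime (Q ^ k) ((Polynomial.X : Polynomial R) ^ k) :=
    ((hQ.isRelPrime_iff_not_dvd.2 hQX).pow_left).pow_right
  have hQkG : Q ^ k ∣ G := hrp.dvd_of_dvd_mul_left hQk
  have hdQ : Q.natDegree = 0 := by
    by_contra hne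
    have := Polynomial.natDegree_le_of_dvd hQkG hG
    rw [Polynomial.natDegree_pow] at this
    have : k * 1 ≤ k * Q.natDegree := Nat.mul_le_mul_left _ (Nat.one_le_iff_ne_zero.2 hne)
    omega
  obtain ⟨r, rfl⟩ : ∃ r, Q = Polynomial.C r := ⟨_, Polynomial.eq_C_of_natDegree_eq_zero hdQ⟩
  have hr : r ∣ G.leadingCoeff := by
    exact (Polynomial.C_dvd_iff_dvd_coeff _ _).1 hQG _
  have : IsUnit r := isUnit_of_dvd_unit hr h5
  exact hQ.not_isUnit (this.map Polynomial.C)

theorem X1_pow_dvd {K : Type} [Field K] {T : MvPolynomial (Fin 2) K} {m : ℕ}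
    (h : (X 1 : MvPolynomial (Fin 2) K) ^ m ∣ T) : ∀ d ∈ T.support, m ≤ d 1 := by
  intro d hd
  rw [X_pow_eq_monomial, monomial_one_dvd_iff_modMonomial_eq_zero] at h
  by_contra hlt
  have h2 := coeff_modMonomial_of_not_le (s' := d) (s := Finsupp.single 1 m) T (by
    intro hle
    have := hle 1
    simp at this
    omega)
  rw [h] at h2
  simp at h2
  exact (mem_support_iff.1 hd) h2.symm

theorem X1_dvd_of {K : Type} [Field K] {T : MvPolynomial (Fin 2) K}
    (h : ∀ d ∈ T.support, 1 ≤ d 1) : (X 1 : MvPolynomial (Fin 2) K) ∣ T := by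
  rw [X_dvd_iff_modMonomial_eq_zero]
  ext d
  by_cases hle : Finsupp.single 1 1 ≤ d
  · rw [coeff_modMonomial_of_le _ hle]; simp
  · rw [coeff_modMonomial_of_not_le _ hle]
    simp only [coeff_zero]
    by_contra hne
    have := h d (mem_support_iff.2 hne)
    exact hle (by
      intro i
      fin_cases i
      · simp
      · simpa using this)

theorem left_bound {K : Type} [Field K] (P : MvPolynomial (Fin 2) K) (k : ℕ) (hk : 1 ≤ k)
    (hB : BigP P) (hsup : ∀ d ∈ P.support, d 0 + d 1 ≤ 2 * k) (c : K) (hc : c ≠ 0)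
    (hcomp : homogeneousComponent (2 * k) P = C c * (X 0 * X 1) ^ k) :
    ∀ d ∈ P.support, d 0 ≤ k := by
  classical
  -- the top monomials
  have hXY : (C c * (X 0 * X 1) ^ k : MvPolynomial (Fin 2) K) =
      monomial (Finsupp.single 0 k + Finsupp.single 1 k) c := by
    rw [mul_pow, X_pow_eq_monomial, X_pow_eq_monomial, monomial_mul, C_mul_monomial]
    simp
  have htop : ∀ d : Fin 2 →₀ ℕ, d 0 + d 1 = 2 * k →
      coeff d P = if d = Finsupp.single 0 k + Finsupp.single 1 k then c else 0 := by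
    intro d hd
    have h1 := congrArg (coeff d) hcomp
    rw [coeff_homogeneousComponent, hXY, coeff_monomial] at h1
    have hdeg : d.degree = 2 * k := by
      rw [← hd, Finsupp.degree_eq_sum]; simp [Fin.sum_univ_two]
    rw [if_pos hdeg] at h1
    rw [h1]
    simp only [eq_comm]
  set δ : Fin 2 →₀ ℕ := Finsupp.single 0 k + Finsupp.single 1 k with hδ
  have hδ0 : δ 0 = k := by simp [hδ]
  have hδ1 : δ 1 = k := by simp [hδ]
  have hδP : coeff δ P = c := by rw [htop δ (by omega)]; simp
  have ext2 : ∀ d e : Fin 2 →₀ ℕ, d 0 = e 0 → d 1 = e 1 → d = e := by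
    intro d e h0 h1
    ext i; fin_cases i
    · exact h0
    · exact h1
  by_contra hcon
  push Not at hcon
  obtain ⟨dd, hdd, hdk⟩ := hcon
  -- elements with d 0 > k
  set S := P.support.filter (fun d => k < d 0) with hS
  have hSne : S.Nonempty := ⟨dd, by simp [hS, hdk]; exact mem_support_iff.1 hdd⟩
  obtain ⟨e, heS, hmin⟩ := S.exists_min_image (fun d => ((k : ℚ) - d 1) / ((d 0 : ℚ) - k)) hSne
  have heP : e ∈ P.support := (Finset.mem_filter.1 heS).1
  have hek : k < e 0 := (Finset.mem_filter.1 heS).2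
  have he2 : e 0 + e 1 < 2 * k := by
    refine lt_of_le_of_ne (hsup e heP) fun h => ?_
    have h1 := htop e h
    rw [if_neg (by rintro rfl; omega)] at h1
    exact (mem_support_iff.1 heP) h1
  have he1 : e 1 < k := by omega
  set w : Fin 2 → ℕ := ![k - e 1, e 0 - k] with hw
  have hw0 : w 0 = k - e 1 := rfl
  have hw1 : w 1 = e 0 - k := rfl
  have hwpos : ∀ i, 0 < w i := by
    intro i; fin_cases i
    · show 0 < k - e 1; omega
    · show 0 < e 0 - k; omega
  have hww : w 1 < w 0 := by rw [hw0, hw1]; omega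
  set n := k * (w 0 + w 1) with hn
  -- weights
  have hmin' : ∀ d ∈ P.support, k < d 0 → (d 0 - k) * w 0 ≤ (k - d 1) * w 1 := by
    intro d hd hdk
    have h1 := hmin d (Finset.mem_filter.2 ⟨hd, hdk⟩)
    have hd1 : d 1 < k := by have := hsup d hd; omega
    have p1 : (0 : ℚ) < (e 0 : ℚ) - k := by
      have : (k : ℚ) < e 0 := by exact_mod_cast hek
      linarith
    have p2 : (0 : ℚ) < (d 0 : ℚ) - k := by
      have : (k : ℚ) < d 0 := by exact_mod_cast hdk
      linarith
    rw [div_le_div_iff₀ p1 p2] at h1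
    have : (((d 0 - k : ℕ) * w 0 : ℕ) : ℚ) ≤ (((k - d 1 : ℕ) * w 1 : ℕ) : ℚ) := by
      rw [hw0, hw1]
      push_cast [Nat.cast_sub hdk.le, Nat.cast_sub he1.le, Nat.cast_sub hd1.le, Nat.cast_sub hek.le]
      linarith
    exact_mod_cast this
  have hle : ∀ d ∈ P.support, d 0 * w 0 + d 1 * w 1 ≤ n ∧
      (d 0 * w 0 + d 1 * w 1 = n → d = δ ∨ k < d 0) := by
    intro d hd
    have hs := hsup d hd
    rcases lt_or_ge k (d 0) with h | h
    · have h1 := hmin' d hd h
      have hd1 : d 1 < k := by omega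
      refine ⟨?_, fun _ => Or.inr h⟩
      obtain ⟨a, ha⟩ := Nat.exists_eq_add_of_lt h
      obtain ⟨b, hb⟩ := Nat.exists_eq_add_of_lt hd1
      rw [hn]
      have e1 : d 0 - k = a + 1 := by omega
      have e2 : k - d 1 = b + 1 := by omega
      rw [e1, e2] at h1
      have e3 : d 0 = k + (a + 1) := by omega
      rw [e3]
      have e4 : k * w 1 = d 1 * w 1 + (b + 1) * w 1 := by
        rw [← add_mul]; congr 1
      have e5 : (k + (a + 1)) * w 0 = k * w 0 + (a + 1) * w 0 := by ring
      rw [e5, mul_add, e4]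
      omega
    · rcases le_or_gt (d 1) k with h' | h'
      · have q1 : d 0 * w 0 ≤ k * w 0 := Nat.mul_le_mul_right _ h
        have q2 : d 1 * w 1 ≤ k * w 1 := Nat.mul_le_mul_right _ h'
        refine ⟨by rw [hn, mul_add]; omega, fun heq => Or.inl ?_⟩
        rw [hn, mul_add] at heq
        have r1 : d 0 * w 0 = k * w 0 := by omega
        have r2 : d 1 * w 1 = k * w 1 := by omega
        exact ext2 _ _ (by rw [hδ0]; exact Nat.eq_of_mul_eq_mul_right (hwpos 0) r1)
          (by rw [hδ1]; exact Nat.eq_of_mul_eq_mul_right (hwpos 1) r2)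
      · -- d 1 > k, d 0 < k
        have hlt : d 0 * w 0 + d 1 * w 1 < n := by
          obtain ⟨b, hb⟩ := Nat.exists_eq_add_of_lt h'
          have e1 : d 1 = k + (b + 1) := by omega
          have e2 : d 0 + (b + 1) ≤ k := by omega
          have e3 : d 0 * w 0 + (b + 1) * w 0 ≤ k * w 0 := by
            rw [← add_mul]; exact Nat.mul_le_mul_right _ e2
          have e4 : (b + 1) * w 1 < (b + 1) * w 0 := Nat.mul_lt_mul_of_pos_left hww (by omega)
          rw [hn, mul_add, e1, add_mul]
          omega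
        exact ⟨hlt.le, fun h => absurd h hlt.ne⟩
  have hwle : ∀ d ∈ P.support, d 0 * w 0 + d 1 * w 1 ≤ n := fun d hd => (hle d hd).1
  set T := weightedHomogeneousComponent w n P with hT
  have hTc : ∀ d, coeff d T = if d 0 * w 0 + d 1 * w 1 = n then coeff d P else 0 := by
    intro d
    rw [hT, coeff_weightedHomogeneousComponent]
    have : Finsupp.weight w d = d 0 * w 0 + d 1 * w 1 := by
      rw [Finsupp.weight_apply, Finsupp.sum_fintype]
      · simp [Fin.sum_univ_two]
      · simp
    rw [this]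
  have hTs : ∀ d ∈ T.support, d ∈ P.support ∧ d 0 * w 0 + d 1 * w 1 = n ∧ (d = δ ∨ k < d 0) := by
    intro d hd
    rw [mem_support_iff, hTc] at hd
    split_ifs at hd with h
    · exact ⟨mem_support_iff.2 hd, h, (hle d (mem_support_iff.2 hd)).2 h⟩
    · exact absurd rfl hd
  have hδT : coeff δ T = c := by
    rw [hTc, if_pos (by rw [hδ0, hδ1, hn]; ring), hδP]
  have heT : coeff e T ≠ 0 := by
    rw [hTc, if_pos]
    · exact mem_support_iff.1 heP
    · rw [hn, hw0, hw1]
      obtain ⟨a, ha⟩ := Nat.exists_eq_add_of_lt hek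
      obtain ⟨b, hb⟩ := Nat.exists_eq_add_of_lt he1
      have e1 : e 0 - k = a + 1 := by omega
      have e2 : k - e 1 = b + 1 := by omega
      rw [e1, e2]
      have e3 : e 0 = k + (a + 1) := by omega
      rw [e3]
      have e4 : k = e 1 + (b + 1) := by omega
      rw [e4]; ring
  have hT0 : T ≠ 0 := by
    intro h; rw [h] at heT; simp at heT
  -- a pure power of X 0
  have hpure : ∃ d ∈ T.support, d 1 = 0 := by
    by_contra hno
    push Not at hno
    have hdvd := X1_dvd_of (T := T) (fun d hd => Nat.one_le_iff_ne_zero.2 (hno d hd))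
    have hirr : Irreducible (X 1 : MvPolynomial (Fin 2) K) := (MvPolynomial.X_prime (i := (1 : Fin 2))).irreducible
    obtain ⟨m, hm1, hm2, hm3⟩ := exists_mult hirr hT0 hdvd
    have hb := hB w hwpos n hwle _ hirr m hm1 hm2 hm3
    have hkm : k ≤ m := by
      rw [hn] at hb
      exact Nat.le_of_mul_le_mul_right hb (by have := hwpos 0; omega)
    have := X1_pow_dvd hm2 e (mem_support_iff.2 heT)
    omega
  obtain ⟨u, huT, hu1⟩ := hpure
  obtain ⟨huP, hun, huk⟩ := hTs u huT
  have hu0 : k < u 0 := by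
    rcases huk with h | h
    · rw [h, hδ1] at hu1; omega
    · exact h
  rw [hu1, zero_mul, add_zero] at hun
  have hu2 : u 0 < 2 * k := by
    have : u 0 * w 0 < (2 * k) * w 0 := by
      rw [hun, hn, mul_add]
      have : k * w 1 < k * w 0 := Nat.mul_lt_mul_of_pos_left hww (by omega)
      have e : 2 * k * w 0 = k * w 0 + k * w 0 := by ring
      omega
    exact lt_of_mul_lt_mul_right this (Nat.zero_le _)
  -- pass to polynomials in one variable
  set TT := finSuccEquiv K 1 T with hTT
  have hcc : ∀ (a : ℕ) (m : Fin 1 →₀ ℕ), coeff m (TT.coeff a) = coeff (m.cons a) T :=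
    fun a m => finSuccEquiv_coeff_coeff m T a
  have cons0 : ∀ (a : ℕ) (m : Fin 1 →₀ ℕ), (m.cons a) 0 = a := fun a m => by simp
  have cons1 : ∀ (a : ℕ) (m : Fin 1 →₀ ℕ), (m.cons a) 1 = m 0 := fun a m => by
    have : (1 : Fin 2) = Fin.succ 0 := rfl
    rw [this, Finsupp.cons_succ]
  have ext1 : ∀ d e : Fin 1 →₀ ℕ, d 0 = e 0 → d = e := by
    intro d e h
    refine Finsupp.ext fun i => ?_
    fin_cases i
    exact h
  have c1 : Polynomial.X ^ k ∣ TT := by
    rw [Polynomial.X_pow_dvd_iff]
    intro a ha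
    ext m
    rw [hcc, coeff_zero]
    by_contra hne
    have h1 := hTs _ (mem_support_iff.2 hne)
    rw [cons0] at h1
    rcases h1.2.2 with h | h
    · have := congrArg (fun f => f 0) h
      simp only [cons0] at this
      rw [hδ0] at this; omega
    · omega
  have c2 : TT.coeff k = monomial (Finsupp.single 0 k) c := by
    ext m
    rw [hcc, coeff_monomial]
    split_ifs with h
    · have : Finsupp.cons k m = δ := ext2 _ _ (by rw [cons0, hδ0]) (by rw [cons1, hδ1, ← h]; simp)
      rw [this, hδT]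
    · by_contra hne
      have h1 := hTs _ (mem_support_iff.2 hne)
      rcases h1.2.2 with h' | h'
      · apply h
        have := congrArg (fun f => f 1) h'
        simp only [cons1] at this
        rw [hδ1] at this
        exact ext1 _ _ (by simp [this])
      · rw [cons0] at h'; omega
  have c3 : TT.coeff (u 0) = C (coeff u T) := by
    ext m
    rw [hcc, coeff_C]
    split_ifs with h
    · have : Finsupp.cons (u 0) m = u := ext2 _ _ (by rw [cons0]) (by rw [cons1, ← h, hu1]; simp)
      rw [this]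
    · by_contra hne
      have h1 := (hTs _ (mem_support_iff.2 hne)).2.1
      rw [cons0, cons1] at h1
      apply h
      have : m 0 * w 1 = 0 := by omega
      have : m 0 = 0 := by
        rcases Nat.mul_eq_zero.1 this with h | h
        · exact h
        · have := hwpos 1; omega
      exact ext1 _ _ (by simp [this])
  have c4 : TT.natDegree = u 0 := by
    apply le_antisymm
    · rw [Polynomial.natDegree_le_iff_coeff_eq_zero]
      intro N hN
      ext m
      rw [hcc, coeff_zero]
      by_contra hne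
      have h1 := (hTs _ (mem_support_iff.2 hne)).2.1
      rw [cons0, cons1] at h1
      have : u 0 * w 0 < N * w 0 := Nat.mul_lt_mul_of_pos_right hN (hwpos 0)
      omega
    · apply Polynomial.le_natDegree_of_ne_zero
      rw [c3]
      simpa using mem_support_iff.1 huT
  have c5 : IsUnit TT.leadingCoeff := by
    rw [Polynomial.leadingCoeff, c4, c3]
    exact (isUnit_iff_ne_zero.2 (mem_support_iff.1 huT)).map C
  have c6 : TT.coeff k ≠ 0 := by rw [c2]; simpa using hc
  have c7 : ¬ IsUnit (TT.coeff k) := by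
    intro h
    rw [MvPolynomial.isUnit_iff_eq_C_of_isReduced] at h
    obtain ⟨r, _, hr⟩ := h
    rw [c2] at hr
    have := congrArg (coeff (Finsupp.single 0 k)) hr
    rw [coeff_monomial, if_pos rfl, coeff_C, if_neg] at this
    · exact hc this
    · intro h
      have := congrArg (fun f => f 0) h
      simp at this
      omega
  obtain ⟨q, hq, hqT, hqk⟩ := core TT k c1 c6 c7 (by rw [c4]; exact hu2) c5
  set q' := (finSuccEquiv K 1).symm q with hq'
  have hqq : finSuccEquiv K 1 q' = q := by simp [hq']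
  have hq'irr : Irreducible q' := by
    rw [← MulEquiv.irreducible_iff (finSuccEquiv K 1), hqq]; exact hq
  have hdvd_iff : ∀ j, q' ^ j ∣ T ↔ q ^ j ∣ TT := by
    intro j
    rw [hTT, ← map_dvd_iff (finSuccEquiv K 1), map_pow, hqq]
  have hd1 : q' ∣ T := by
    have := (hdvd_iff 1).2 (by simpa using hqT)
    simpa using this
  obtain ⟨m, hm1, hm2, hm3⟩ := exists_mult hq'irr hT0 hd1
  have hb := hB w hwpos n hwle _ hq'irr m hm1 hm2 hm3
  have hkm : k ≤ m := by
    rw [hn] at hb
    exact Nat.le_of_mul_le_mul_right hb (by have := hwpos 0; omega)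
  exact hqk ((hdvd_iff k).1 ((pow_dvd_pow _ hkm).trans hm2))

/-- exchange of the two exponents -/
noncomputable def sw (d : Fin 2 →₀ ℕ) : Fin 2 →₀ ℕ := Finsupp.mapDomain (Equiv.swap (0 : Fin 2) 1) d

theorem sw0 (d : Fin 2 →₀ ℕ) : sw d 0 = d 1 := by
  rw [sw, Finsupp.mapDomain_equiv_apply]; simp

theorem sw1 (d : Fin 2 →₀ ℕ) : sw d 1 = d 0 := by
  rw [sw, Finsupp.mapDomain_equiv_apply]; simp

theorem sw_sw (d : Fin 2 →₀ ℕ) : sw (sw d) = d := by
  refine Finsupp.ext fun i => ?_
  fin_cases i
  · exact (sw0 _).trans (sw1 _)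
  · exact (sw1 _).trans (sw0 _)

noncomputable def sg (K : Type) [Field K] : MvPolynomial (Fin 2) K ≃ₐ[K] MvPolynomial (Fin 2) K :=
  renameEquiv K (Equiv.swap (0 : Fin 2) 1)

theorem coeff_sg {K : Type} [Field K] (F : MvPolynomial (Fin 2) K) (d : Fin 2 →₀ ℕ) :
    coeff d (sg K F) = coeff (sw d) F := by
  have h : d = Finsupp.mapDomain (Equiv.swap (0 : Fin 2) 1) (sw d) := (sw_sw d).symm
  conv_lhs => rw [h]
  rw [sg, renameEquiv_apply, coeff_rename_mapDomain _ (Equiv.injective _)]

theorem sg_sg {K : Type} [Field K] (F : MvPolynomial (Fin 2) K) : sg K (sg K F) = F := by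
  ext d
  rw [coeff_sg, coeff_sg, sw_sw]

theorem coeff_whc {K : Type} [Field K] (w : Fin 2 → ℕ) (n : ℕ) (P : MvPolynomial (Fin 2) K)
    (d : Fin 2 →₀ ℕ) : coeff d (weightedHomogeneousComponent w n P) =
      if d 0 * w 0 + d 1 * w 1 = n then coeff d P else 0 := by
  classical
  rw [coeff_weightedHomogeneousComponent]
  have : Finsupp.weight w d = d 0 * w 0 + d 1 * w 1 := by
    rw [Finsupp.weight_apply, Finsupp.sum_fintype]
    · simp [Fin.sum_univ_two]
    · simp
  rw [this]

theorem sg_whc {K : Type} [Field K] (w : Fin 2 → ℕ) (n : ℕ) (P : MvPolynomial (Fin 2) K) :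
    sg K (weightedHomogeneousComponent w n P) =
      weightedHomogeneousComponent ![w 1, w 0] n (sg K P) := by
  ext d
  rw [coeff_sg, coeff_whc, coeff_whc, coeff_sg, sw0, sw1]
  have : d 1 * w 0 + d 0 * w 1 = d 0 * ![w 1, w 0] 0 + d 1 * ![w 1, w 0] 1 := by
    show d 1 * w 0 + d 0 * w 1 = d 0 * w 1 + d 1 * w 0
    ring
  rw [this]

theorem big_sg {K : Type} [Field K] (P : MvPolynomial (Fin 2) K) (hB : BigP P) :
    BigP (sg K P) := by
  intro w hw n hn q hq m hm h1 h2
  have hq' : Irreducible (sg K q) := (MulEquiv.irreducible_iff (sg K)).2 hq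
  have key : ∀ j, q ^ j ∣ weightedHomogeneousComponent w n (sg K P) ↔
      sg K q ^ j ∣ weightedHomogeneousComponent ![w 1, w 0] n P := by
    intro j
    rw [← map_dvd_iff (sg K), map_pow, sg_whc, sg_sg]
  have := hB ![w 1, w 0] (by
    intro i; fin_cases i
    · exact hw 1
    · exact hw 0) n (by
      intro d hd
      have h := hn (sw d) (by
        rw [mem_support_iff, coeff_sg, sw_sw]
        exact mem_support_iff.1 hd)
      rw [sw0, sw1] at h
      show d 0 * w 1 + d 1 * w 0 ≤ n
      linarith) (sg K q) hq' m hm ((key m).1 h1) (fun h => h2 ((key (m + 1)).2 h))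
  have e : w 0 + w 1 = ![w 1, w 0] 0 + ![w 1, w 0] 1 := by
    show w 0 + w 1 = w 1 + w 0
    ring
  rw [e]
  exact this

theorem both {K : Type} [Field K] (P : MvPolynomial (Fin 2) K) (k : ℕ) (hk : 1 ≤ k)
    (hB : BigP P) (hsup : ∀ d ∈ P.support, d 0 + d 1 ≤ 2 * k) (c : K) (hc : c ≠ 0)
    (hcomp : homogeneousComponent (2 * k) P = C c * (X 0 * X 1) ^ k) :
    ∀ d ∈ P.support, d 0 ≤ k ∧ d 1 ≤ k := by
  classical
  intro d hd
  refine ⟨left_bound P k hk hB hsup c hc hcomp d hd, ?_⟩
  have h := left_bound (sg K P) k hk (big_sg P hB) (by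
    intro e he
    have := hsup (sw e) (by
      rw [mem_support_iff, ← coeff_sg]
      exact mem_support_iff.1 he)
    rw [sw0, sw1] at this
    omega) c hc (by
      have e1 : sg K (C c * (X 0 * X 1) ^ k) = (C c * (X 0 * X 1) ^ k : MvPolynomial (Fin 2) K) := by
        rw [map_mul, map_pow, map_mul]
        simp only [sg, renameEquiv_apply, rename_C, rename_X, Equiv.swap_apply_left,
          Equiv.swap_apply_right]
        ring
      rw [← e1, ← hcomp]
      ext e
      rw [coeff_sg, coeff_homogeneousComponent, coeff_homogeneousComponent, coeff_sg]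
      have : (sw e).degree = e.degree := by
        rw [Finsupp.degree_eq_sum, Finsupp.degree_eq_sum]
        simp only [Fin.sum_univ_two, sw0, sw1]
        ring
      rw [this]) (sw d) (by
        rw [mem_support_iff, coeff_sg, sw_sw]
        exact mem_support_iff.1 hd)
  rwa [sw0] at h

end Pool.Agent.H747R3.EG
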