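import Pool.Agent.H193R5.EG.Stmts
import Pool.Agent.H747R3.EG.Core

set_option autoImplicit false

open MvPolynomial

namespace Pool.Agent.H747R3.EG

theorem rtwo_holds : Pool.Agent.H193R5.EG.RTWO :=
  fun _K _ _ P k hk hB hsup c hc hcomp => both P k hk hB hsup c hc hcomp

end Pool.Agent.H747R3.EG
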